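import Mathlib
import Pool.Agent.H7.VojtaFinal

/-!
# Vojta's inequality on blow-ups of powers of an elliptic curve

`E : W` is an elliptic curve over a number field `k`.  We blow up `E^n` in the fibres
`φ_l⁻¹(c_l)` of finitely many homomorphisms `φ_l : E^n → E^(r_l)` given by integer matrices.
-/

set_option autoImplicit false

open Height NumberField WeierstrassCurve WeierstrassCurve.Affine

namespace Pool.Agent.Results.MP_9b9442_nt.BlowupEllipticPowers

universe u v

/-- How close a point of an elliptic curve is to the origin `0` with respect to an absolute value: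
`0` at the origin itself and `1 / max (|x|, 1)` at `(x, y)`. -/
noncomputable def nearness {K : Type*} [Field K] {W : Affine K} (v : K → ℝ) : W.Point → ℝ
  | 0 => 0
  | .some x _ _ => (max (v x) 1)⁻¹

/-- The height, relative to `k`, of a point `Q` of `E^r(K)` with respect to the origin of `E^r`
(equivalently, to the exceptional divisor above the origin): the sum over all places of
`min_i (-1/2) log (nearness (Q i))`. -/
noncomputable def originHeight (k : Type u) {K : Type v} [Field k] [Field K] [NumberField K]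
    [Algebra k K] {W : Affine K} {r : ℕ} (Q : Fin r → W.Point) : ℝ :=
  (Module.finrank k K : ℝ)⁻¹ * (1 / 2) *
    (∑ w : InfinitePlace K, w.mult * (-Real.log (⨆ i, nearness w (Q i))) +
      ∑ᶠ w : FinitePlace K, -Real.log (⨆ i, nearness w (Q i)))

/-- The height, relative to `k`, on `E` with respect to the divisor `(0)`: half the height of the
`x`-coordinate. -/
noncomputable def pointHeight (k : Type u) {K : Type v} [Field k] [Field K] [NumberField K]
    [Algebra k K] {W : Affine K} (P : W.Point) : ℝ :=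
  (Module.finrank k K : ℝ)⁻¹ * (1 / 2) * logHeight P.xRep

/-- The height, relative to `k`, on `E^n` with respect to the ample divisor `Σ_j pr_j^* (0)`. -/
noncomputable def ampleHeight (k : Type u) {K : Type v} [Field k] [Field K] [NumberField K]
    [Algebra k K] {W : Affine K} {n : ℕ} (P : Fin n → W.Point) : ℝ :=
  ∑ j, pointHeight k (P j)

/-- The point `φ(P) - c` of `E^r(K)`, for an integer matrix `φ` and `c ∈ E^r(k)`. -/
noncomputable def centred {k : Type u} [Field k] [DecidableEq k] {W : Affine k} {K : Type v}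
    [Field K] [DecidableEq K] [Algebra k K] {r n : ℕ} (φ : Fin r → Fin n → ℤ)
    (c : Fin r → (W⁄k).Point) (P : Fin n → (W⁄K).Point) : Fin r → (W⁄K).Point :=
  fun i => ∑ j, φ i j • P j - Point.baseChange k K (c i)

theorem result {k : Type u} [Field k] [NumberField k] [DecidableEq k] (W : Affine k)
    [W.IsElliptic] {n m : ℕ} (r : Fin m → ℕ) (φ : (l : Fin m) → Fin (r l) → Fin n → ℤ)
    (c : (l : Fin m) → Fin (r l) → (W⁄k).Point) (ε : ℝ) (hε : 0 < ε) :
    ∃ (M : ℕ) (δ C : ℝ), 0 < δ ∧ ∀ (K : Type v) [Field K] [NumberField K] [DecidableEq K]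
      [Algebra k K] (P : Fin n → (W⁄K).Point),
      (∀ l, ∃ w : Fin (r l) → ℤ, w ≠ 0 ∧
        pointHeight k (∑ i, w i • centred (φ l) (c l) P i) ≤
          δ * (∑ i, (w i : ℝ) ^ 2) * ampleHeight k P) →
      (∀ l, ∀ u : Fin (r l) → ℤ, u ≠ 0 → (∀ i, |u i| ≤ M) →
        ∑ i, u i • centred (φ l) (c l) P i ≠ 0) →
      ∑ l, ((r l : ℝ) - 1) * originHeight k (centred (φ l) (c l) P) ≤
        ε * ampleHeight k P + C := by
  classical
  have hnear : ∀ (K : Type v) [Field K] (W' : Affine K) (w : K → ℝ) (Q : W'.Point),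
      nearness w Q = H7.Vojta.nearness w Q := by
    intro K _ W' w Q
    match Q with
    | 0 => rfl
    | .some x y h => rfl
  set η : ℝ := ε / (1 + ∑ l, (r l : ℝ)) with hη
  have hs0 : 0 ≤ ∑ l, (r l : ℝ) := Finset.sum_nonneg fun l _ => Nat.cast_nonneg _
  have hη0 : 0 < η := div_pos hε (by linarith)
  have h := fun l => H7.Vojta.one_centre.{u, v} W (φ l) (c l) hη0
  choose M δ D hδ0 hD0 hD using h
  have hsδ : 0 ≤ ∑ l, (δ l)⁻¹ := Finset.sum_nonneg fun l _ => (inv_pos.mpr (hδ0 l)).le
  have hδle : ∀ l, (1 + ∑ l, (δ l)⁻¹)⁻¹ ≤ δ l := fun l => by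
    rw [inv_le_comm₀ (by linarith) (hδ0 l)]
    have := Finset.single_le_sum (f := fun l => (δ l)⁻¹)
      (fun l _ => (inv_pos.mpr (hδ0 l)).le) (Finset.mem_univ l)
    linarith
  refine ⟨∑ l, M l, (1 + ∑ l, (δ l)⁻¹)⁻¹, ∑ l, (r l : ℝ) * ((1 / 2) * D l * Module.finrank ℚ k),
    inv_pos.mpr (by linarith), ?_⟩
  intro K _ _ _ _ P hdep hZ
  have hfin0 : (0 : ℝ) < Module.finrank k K := by exact_mod_cast Module.finrank_pos
  have htw : (totalWeight K : ℝ) = Module.finrank ℚ k * Module.finrank k K := by
    rw [totalWeight_eq_finrank, ← Module.finrank_mul_finrank ℚ k K]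
    push_cast
    ring
  have hN : 0 ≤ ∑ j, H7.Vojta.naive (P j) :=
    Finset.sum_nonneg fun j _ => H7.Vojta.naive_nonneg _
  have hpt : ∀ R : (W⁄K).Point, pointHeight k R =
      (Module.finrank k K : ℝ)⁻¹ * (1 / 2) * H7.Vojta.naive R := fun R => rfl
  have hamp : ampleHeight k P =
      (Module.finrank k K : ℝ)⁻¹ * (1 / 2) * ∑ j, H7.Vojta.naive (P j) := by
    rw [ampleHeight, Finset.mul_sum]
    exact Finset.sum_congr rfl fun j _ => hpt _
  have hamp0 : 0 ≤ ampleHeight k P := by
    rw [hamp]
    exact mul_nonneg (by positivity) hN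
  have key : ∀ l, ((r l : ℝ) - 1) * originHeight k (centred (φ l) (c l) P) ≤
      (r l : ℝ) * (η * ampleHeight k P + (1 / 2) * D l * Module.finrank ℚ k) := by
    intro l
    obtain ⟨w, hw0, hw⟩ := hdep l
    have hrl : r l ≠ 0 := by
      intro h0
      apply hw0
      have : IsEmpty (Fin (r l)) := by rw [h0]; infer_instance
      exact Subsingleton.elim _ _
    have hrl1 : (1 : ℝ) ≤ r l := by exact_mod_cast Nat.one_le_iff_ne_zero.mpr hrl
    have hw' : H7.Vojta.naive (∑ i, w i • centred (φ l) (c l) P i) ≤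
        δ l * (∑ i, (w i : ℝ) ^ 2) * ∑ j, H7.Vojta.naive (P j) := by
      rw [hpt, hamp] at hw
      have hsq : 0 ≤ ∑ i, (w i : ℝ) ^ 2 := Finset.sum_nonneg fun i _ => sq_nonneg _
      have hκ : 0 < (Module.finrank k K : ℝ)⁻¹ * (1 / 2) := by positivity
      have e : (Module.finrank k K : ℝ)⁻¹ * (1 / 2) *
          H7.Vojta.naive (∑ i, w i • centred (φ l) (c l) P i) ≤
          (Module.finrank k K : ℝ)⁻¹ * (1 / 2) *
          (δ l * (∑ i, (w i : ℝ) ^ 2) * ∑ j, H7.Vojta.naive (P j)) := by
        refine hw.trans ?_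
        have := mul_le_mul_of_nonneg_right (hδle l) (mul_nonneg hsq (mul_nonneg hκ.le hN))
        calc _ = (1 + ∑ l, (δ l)⁻¹)⁻¹ * ((∑ i, (w i : ℝ) ^ 2) *
              ((Module.finrank k K : ℝ)⁻¹ * (1 / 2) * ∑ j, H7.Vojta.naive (P j))) := by ring
          _ ≤ _ := this
          _ = _ := by ring
      exact le_of_mul_le_mul_left e hκ
    have h1 := hD l K P ⟨w, hw0, hw'⟩ (fun u hu hb => hZ l u hu (fun i => (hb i).trans (by
      exact_mod_cast Finset.single_le_sum (f := M) (fun _ _ => Nat.zero_le _) (Finset.mem_univ l))))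
    have h2 : originHeight k (centred (φ l) (c l) P) =
        (Module.finrank k K : ℝ)⁻¹ * (1 / 2) * H7.Vojta.nearSum (centred (φ l) (c l) P) := by
      simp only [originHeight, H7.Vojta.nearSum, hnear]
    have h3 : originHeight k (centred (φ l) (c l) P) ≤
        η * ampleHeight k P + (1 / 2) * D l * Module.finrank ℚ k := by
      rw [h2, hamp]
      calc _ ≤ (Module.finrank k K : ℝ)⁻¹ * (1 / 2) * (η * ∑ j, H7.Vojta.naive (P j) +
            D l * totalWeight K) := mul_le_mul_of_nonneg_left h1 (by positivity)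
        _ = _ := by
            rw [htw]
            field_simp
    have h4 : 0 ≤ η * ampleHeight k P + (1 / 2) * D l * Module.finrank ℚ k := by
      have := hD0 l
      positivity
    calc _ ≤ ((r l : ℝ) - 1) * (η * ampleHeight k P + (1 / 2) * D l * Module.finrank ℚ k) :=
          mul_le_mul_of_nonneg_left h3 (by linarith)
      _ ≤ _ := by nlinarith
  calc ∑ l, ((r l : ℝ) - 1) * originHeight k (centred (φ l) (c l) P)
      ≤ ∑ l, (r l : ℝ) * (η * ampleHeight k P + (1 / 2) * D l * Module.finrank ℚ k) :=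
        Finset.sum_le_sum fun l _ => key l
    _ = (∑ l, (r l : ℝ)) * η * ampleHeight k P +
        ∑ l, (r l : ℝ) * ((1 / 2) * D l * Module.finrank ℚ k) := by
        simp only [mul_add, Finset.sum_add_distrib, Finset.sum_mul, mul_assoc]
    _ ≤ _ := by
        have : (∑ l, (r l : ℝ)) * η ≤ ε := by
          rw [hη, mul_div_assoc', div_le_iff₀ (by linarith)]
          nlinarith
        have := mul_le_mul_of_nonneg_right this hamp0
        linarith

end Pool.Agent.Results.MP_9b9442_nt.BlowupEllipticPowers
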