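import Mathlib
import Pool.Agent.H7.VojtaExcMain

/-!
# Counting the points that violate Vojta's inequality on blow-ups of powers of an elliptic curve

`E : W` is an elliptic curve over a number field `k`.  We blow up `E^n` in the fibres
`φ_l⁻¹(c_l)` of finitely many surjective homomorphisms `φ_l : E^n → E^(m_l)` given by integer
matrices, and count the points with coordinates in a finitely generated group that violate the
inequality of Vojta's conjecture, or a stronger inequality.
-/

set_option autoImplicit false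

open Height NumberField WeierstrassCurve WeierstrassCurve.Affine

namespace Pool.Agent.Results.MP_9b9442_nt.ExceptionalPointsCount

/-- How close a point of an elliptic curve is to the origin `0` with respect to an absolute value:
`0` at the origin itself and `1 / max (|x|, 1)` at `(x, y)`. -/
noncomputable def nearness {k : Type*} [Field k] {W : Affine k} (v : k → ℝ) : W.Point → ℝ
  | 0 => 0
  | .some x _ _ => (max (v x) 1)⁻¹

/-- The height of a point `Q` of `E^m(k)` with respect to the origin of `E^m` (equivalently, to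
the exceptional divisor above the origin): the sum over all places of
`min_i (-1/2) log (nearness (Q i))`. -/
noncomputable def originHeight {k : Type*} [Field k] [NumberField k] {W : Affine k} {m : ℕ}
    (Q : Fin m → W.Point) : ℝ :=
  1 / 2 * (∑ v : InfinitePlace k, v.mult * (-Real.log (⨆ i, nearness v (Q i))) +
    ∑ᶠ v : FinitePlace k, -Real.log (⨆ i, nearness v (Q i)))

/-- The height on `E` with respect to the divisor `(0)`: half the height of the
`x`-coordinate. -/
noncomputable def pointHeight {k : Type*} [Field k] [NumberField k] {W : Affine k}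
    (P : W.Point) : ℝ :=
  1 / 2 * logHeight P.xRep

/-- The height on `E^n` with respect to the ample divisor `Σ_j pr_j^* (0)`. -/
noncomputable def ampleHeight {k : Type*} [Field k] [NumberField k] {W : Affine k} {n : ℕ}
    (P : Fin n → W.Point) : ℝ :=
  ∑ j, pointHeight (P j)

/-- The point `φ(P) - c` of `E^m(k)`, for an integer matrix `φ` and `c ∈ E^m(k)`. -/
noncomputable def centred {k : Type*} [Field k] [DecidableEq k] {W : Affine k} {m n : ℕ}
    (φ : Fin m → Fin n → ℤ) (c : Fin m → W.Point) (P : Fin n → W.Point) : Fin m → W.Point :=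
  fun i => ∑ j, φ i j • P j - c i

/-- The points of `Γ^n` of height at most `H`, outside the centres of the blow-up, at which the
inequality `Σ_l (m_l - 1) h_{E_l} ≤ ε h_A^α + C` fails. -/
def exceptional {k : Type*} [Field k] [NumberField k] [DecidableEq k] {W : Affine k}
    (Γ : AddSubgroup W.Point) {n N : ℕ} {m : Fin N → ℕ} (φ : (l : Fin N) → Fin (m l) → Fin n → ℤ)
    (c : (l : Fin N) → Fin (m l) → W.Point) (ε α C H : ℝ) : Set (Fin n → W.Point) :=
  {P | (∀ j, P j ∈ Γ) ∧ ampleHeight P ≤ H ∧ (∀ l, centred (φ l) (c l) P ≠ 0) ∧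
    ε * ampleHeight P ^ α + C < ∑ l, ((m l : ℝ) - 1) * originHeight (centred (φ l) (c l) P)}

theorem result {k : Type*} [Field k] [NumberField k] [DecidableEq k] (W : Affine k)
    [W.IsElliptic] (Γ : AddSubgroup W.Point) (hΓ : Γ.FG) (r : ℕ) (hr : r = Module.finrank ℤ Γ)
    {n N : ℕ} (m : Fin N → ℕ) (φ : (l : Fin N) → Fin (m l) → Fin n → ℤ)
    (hφ : ∀ l, LinearIndependent ℚ fun i j => (φ l i j : ℚ))
    (c : (l : Fin N) → Fin (m l) → W.Point) (ε α : ℝ) (hε : 0 < ε) (hα0 : 0 < α) (hα1 : α ≤ 1) :
    ∃ C : ℝ, ∀ H : ℝ, 1 ≤ H →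
      (exceptional Γ φ c ε α C H).Finite ∧
      ((exceptional Γ φ c ε α C H).ncard : ℝ) ≤ C * (1 + Real.log H) *
        ∑ l, (H ^ (r * n / 2 - α * (r * m l / (r + 2)) : ℝ) +
          H ^ (r * (n - m l + 1) / 2 + 1 - α : ℝ)) := by
  classical
  subst hr
  have hmn : ∀ l, m l ≤ n := fun l => by
    obtain ⟨e, -, he, -⟩ := H7.Vojta.exists_separating (φ l) (hφ l)
    omega
  have hnear : ∀ (w : k → ℝ) (Q : W.Point), nearness w Q = H7.Vojta.nearness w Q := by
    intro w Q
    match Q with
    | 0 => rfl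
    | .some x y h => rfl
  obtain ⟨C, hC0, hC⟩ := H7.Vojta.excStmt W Γ hΓ m φ hφ c (2 * ε * (1 / 2) ^ α) α
    (by positivity) hα0 hα1
  set r := Module.finrank ℤ Γ with hr
  set E : ℝ := r * (n + 1) / 2 + 1 with hE
  have hr0 : (0 : ℝ) ≤ r := Nat.cast_nonneg r
  refine ⟨C + C * (2 * 2 ^ E), ?_⟩
  intro H hH
  have hH0 : 0 < H := by linarith
  obtain ⟨hfin, hcard⟩ := hC (2 * H) (by linarith)
  have hamp : ∀ P : Fin n → W.Point, ampleHeight P = 1 / 2 * ∑ j, H7.Vojta.naive (P j) := by
    intro P
    rw [ampleHeight, Finset.mul_sum]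
    rfl
  have horig : ∀ (m' : ℕ) (Q : Fin m' → W.Point),
      originHeight Q = 1 / 2 * H7.Vojta.nearSum Q := by
    intro m' Q
    simp only [originHeight, H7.Vojta.nearSum, hnear]
  have hsub : exceptional Γ φ c ε α (C + C * (2 * 2 ^ E)) H ⊆
      {P : Fin n → W.Point | (∀ j, P j ∈ Γ) ∧ ∑ j, H7.Vojta.naive (P j) ≤ 2 * H ∧
        (∀ l, ∃ i, ∑ j, φ l i j • P j - c l i ≠ 0) ∧
        2 * ε * (1 / 2) ^ α * (∑ j, H7.Vojta.naive (P j)) ^ α + C <
          ∑ l, ((m l : ℝ) - 1) *
            H7.Vojta.nearSum (fun i => ∑ j, φ l i j • P j - c l i)} := by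
    rintro P ⟨hP1, hP2, hP3, hP4⟩
    have hN : 0 ≤ ∑ j, H7.Vojta.naive (P j) :=
      Finset.sum_nonneg fun j _ => H7.Vojta.naive_nonneg _
    refine ⟨hP1, ?_, ?_, ?_⟩
    · rw [hamp] at hP2
      linarith
    · intro l
      by_contra hcon
      push Not at hcon
      exact hP3 l (funext hcon)
    · rw [hamp, Real.mul_rpow (by norm_num) hN] at hP4
      simp only [horig] at hP4
      have h1 : ∑ l, ((m l : ℝ) - 1) *
          (1 / 2 * H7.Vojta.nearSum (centred (φ l) (c l) P)) =
          1 / 2 * ∑ l, ((m l : ℝ) - 1) *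
            H7.Vojta.nearSum (fun i => ∑ j, φ l i j • P j - c l i) := by
        rw [Finset.mul_sum]
        refine Finset.sum_congr rfl fun l _ => ?_
        unfold centred
        ring
      rw [h1] at hP4
      have h2 : 0 ≤ C * (2 * 2 ^ E) := by positivity
      linarith
  refine ⟨hfin.subset fun P hP => (hsub hP).2.1, ?_⟩
  have hset : {P : Fin n → W.Point | (∀ j, P j ∈ Γ) ∧ ∑ j, H7.Vojta.naive (P j) ≤ 2 * H ∧
        (∀ l, ∃ i, ∑ j, φ l i j • P j - c l i ≠ 0) ∧
        2 * ε * (1 / 2) ^ α * (∑ j, H7.Vojta.naive (P j)) ^ α + C <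
          ∑ l, ((m l : ℝ) - 1) *
            H7.Vojta.nearSum (fun i => ∑ j, φ l i j • P j - c l i)}.Finite :=
    hfin.subset fun P hP => hP.2.1
  have h1 : ((exceptional Γ φ c ε α (C + C * (2 * 2 ^ E)) H).ncard : ℝ) ≤
      C * ((1 + Real.log (2 * H)) * H7.Vojta.shape r n α m (2 * H)) := by
    refine le_trans ?_ hcard
    exact_mod_cast Set.ncard_le_ncard hsub hset
  have hlogH : 0 ≤ Real.log H := Real.log_nonneg hH
  have hlog2 : Real.log (2 * H) ≤ 1 + Real.log H := by
    rw [Real.log_mul (by norm_num) hH0.ne']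
    have := Real.log_two_lt_d9
    linarith
  have hlog2' : 0 ≤ Real.log (2 * H) := Real.log_nonneg (by linarith)
  have hshape : H7.Vojta.shape r n α m (2 * H) ≤ 2 ^ E * H7.Vojta.shape r n α m H := by
    unfold H7.Vojta.shape
    rw [Finset.mul_sum]
    apply Finset.sum_le_sum
    intro l _
    have hm0 : (0 : ℝ) ≤ m l := Nat.cast_nonneg _
    have hml : (m l : ℝ) ≤ n := by exact_mod_cast hmn l
    have hp0 : (0 : ℝ) ≤ α * (r * m l / (r + 2)) := by positivity
    have key : ∀ e : ℝ, e ≤ E → (2 * H) ^ e ≤ 2 ^ E * H ^ e := by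
      intro e he
      rw [Real.mul_rpow (by norm_num) hH0.le]
      apply mul_le_mul_of_nonneg_right _ (by positivity)
      exact Real.rpow_le_rpow_of_exponent_le (by norm_num) he
    rw [mul_add ((2 : ℝ) ^ E)]
    apply add_le_add
    · apply key
      rw [hE]
      nlinarith
    · apply key
      rw [hE]
      nlinarith [mul_nonneg hr0 hm0]
  have hshape0 : 0 ≤ H7.Vojta.shape r n α m H :=
    Finset.sum_nonneg fun l _ => by positivity
  calc _ ≤ C * ((1 + Real.log (2 * H)) * H7.Vojta.shape r n α m (2 * H)) := h1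
    _ ≤ C * ((2 * (1 + Real.log H)) * (2 ^ E * H7.Vojta.shape r n α m H)) := by
        apply mul_le_mul_of_nonneg_left _ hC0
        apply mul_le_mul _ hshape _ (by positivity)
        · linarith
        · exact Finset.sum_nonneg fun l _ => by positivity
    _ = C * (2 * 2 ^ E) * (1 + Real.log H) * H7.Vojta.shape r n α m H := by ring
    _ ≤ (C + C * (2 * 2 ^ E)) * (1 + Real.log H) * H7.Vojta.shape r n α m H := by
        apply mul_le_mul_of_nonneg_right _ hshape0
        apply mul_le_mul_of_nonneg_right _ (by linarith)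
        linarith

end Pool.Agent.Results.MP_9b9442_nt.ExceptionalPointsCount
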