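import Pool.Agent.H92.Vojta.Final

namespace Pool.Agent.Results.MP_9b9442_nt.HyperellipticSharp

open NumberField Module Height Polynomial Pool.Agent.H92.Vojta

universe u v

/-- Vojta's inequality for points of bounded degree is sharp on every product of hyperelliptic
curves: over every sufficiently large number field `K` there is a Zariski dense set of points `P`
of degree at most `2 ^ n` with `h_K(P) ≥ d_K(P) + c * Σ log (1 + h(x_i)) - C`. -/
theorem result {k : Type u} [Field k] [NumberField k] {n : ℕ} (g : Fin n → ℕ)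
    (hg : ∀ i, 2 ≤ g i) (f : Fin n → k[X]) (hf : ∀ i, (f i).Separable)
    (hdeg : ∀ i, (f i).natDegree = 2 * g i + 1 ∨ (f i).natDegree = 2 * g i + 2) :
    ∃ K₀ : IntermediateField k (AlgebraicClosure k), NumberField K₀ ∧
    ∀ (K : IntermediateField k (AlgebraicClosure k)) [NumberField K], K₀ ≤ K →
    ∃ (S : Fin n → Set K) (c C : ℝ), (∀ i, (S i).Infinite) ∧ 0 < c ∧
      ∀ x : Fin n → K, (∀ i, x i ∈ S i) →
      ∀ (L : Type v) [Field L] [NumberField L] [Algebra K L] (y : Fin n → L),
        (∀ i, y i ^ 2 = algebraMap K L (aeval (x i) (f i))) →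
        IntermediateField.adjoin K (Set.range y) = ⊤ →
        finrank K L ≤ 2 ^ n ∧
        logDisc K L + c * ∑ i, Real.log (1 + logHeight₁ (x i)) ≤
          ∑ i, ((g i : ℝ) - 1) * logHeight₁ (x i) + C :=
  final g hg f hf hdeg

end Pool.Agent.Results.MP_9b9442_nt.HyperellipticSharp
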