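import Pool.Agent.H7.TernaryUnits

/-!
# Totally positive units that are not squares, and universal ternary classical lattices

Let `K` be a totally real number field, of any degree, admitting a universal ternary classical
lattice, and suppose that some totally positive unit `ε` of `K` is not a square.  Then every
indecomposable totally positive integer of `K` is of the form `x ^ 2` or `ε * x ^ 2`, and either
`2 ε` is a square in `𝓞 K`, or `2` is a square and one of `3`, `3 ε` is a square.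
-/

namespace Pool.Agent.H7.Old.NonsquareUnit

open NumberField Pool.Agent.H7.Ternary

theorem result (K : Type) [Field K] [NumberField K] [IsTotallyReal K]
    (hK : ∃ (Q : QuadraticForm K (Fin 3 → K)) (L : Submodule (𝓞 K) (Fin 3 → K)),
      IsUniversalTernary K Q L)
    (ε : (𝓞 K)ˣ) (hε : TotPos ((ε : 𝓞 K) : K)) (hns : ¬ IsSquare (ε : 𝓞 K)) :
    (∀ a : 𝓞 K, Indecomposable a → (∃ x : 𝓞 K, a = x ^ 2) ∨ ∃ x : 𝓞 K, a = ε * x ^ 2) ∧
    (IsSquare (2 * ε : 𝓞 K) ∨
      (IsSquare (2 : 𝓞 K) ∧ (IsSquare (3 : 𝓞 K) ∨ IsSquare (3 * ε : 𝓞 K)))) := by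
  obtain ⟨Q, L, h⟩ := hK
  obtain ⟨h1, h2⟩ := main h ε hε hns
  refine ⟨fun a ha => ?_, h2⟩
  rcases h1 a ha with ⟨x, hx⟩ | hx
  · exact Or.inl ⟨x, by rw [hx]; ring⟩
  · exact Or.inr hx

end Pool.Agent.H7.Old.NonsquareUnit
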